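import Pool.Agent.Q304.Rk2

/-!
# Ranks on bounded Baire class 1 functions: the restriction property (P5) is superfluous

Every rank `ρ` on the bounded Baire class 1 functions satisfying (P1)-(P4) satisfies `ρ ≈ α₁`
(the separation rank).  The statement is local: it holds for a map defined on the bounded Baire
class 1 functions of one Polish space which has (P1)-(P4) on that space.
-/

set_option autoImplicit false

open Set Ordinal Topology Filter
open scoped Ordinal
open Pool.Q304.RK (IsSeq IsEvenOrd tdiff Lens alpha1 BaireOne BB Les Eqv alphaf RankOn)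

namespace Pool.Agent.Results.MP_12cd8a_lc.RestrictionNotNeeded

/-- A rank: for each Polish space `X` a map assigning ordinals to functions on `X` (only its values
at bounded Baire class 1 functions matter). -/
abbrev Rank : Type 1 :=
  ∀ (X : Type) [TopologicalSpace X] [PolishSpace X], (X → ℝ) → Ordinal.{0}

/-- (P1) -/
def P1 (ρ : Rank) : Prop :=
  ∀ (X : Type) [TopologicalSpace X] [PolishSpace X] (A : Set X), IsGδ A → IsGδ Aᶜ →
    Eqv (ρ X (A.indicator fun _ => 1)) (alpha1 A Aᶜ)

/-- (P2) -/
def P2 (ρ : Rank) : Prop :=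
  ∀ (X : Type) [TopologicalSpace X] [PolishSpace X],
    (∀ (f : X → ℝ) (c : ℝ), BB f → c ≠ 0 → Eqv (ρ X fun x => c * f x) (ρ X f)) ∧
    ∀ f g : X → ℝ, BB f → BB g → Les (ρ X fun x => f x + g x) (max (ρ X f) (ρ X g))

/-- (P3) -/
def P3 (ρ : Rank) : Prop :=
  ∀ (X : Type) [TopologicalSpace X] [PolishSpace X] (f : X → ℝ) (u : ℕ → X → ℝ), BB f →
    (∀ n, BB (u n)) → TendstoUniformly u f atTop → Les (ρ X f) (⨆ n, ρ X (u n))

/-- (P4) -/
def P4 (ρ : Rank) : Prop :=
  ∀ (X : Type) [TopologicalSpace X] [PolishSpace X] (f : X → ℝ) (h : ℝ → ℝ) (K : NNReal),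
    BB f → LipschitzWith K h → Les (ρ X fun x => h (f x)) (ρ X f)

/-- **Main theorem.** First part: every rank with (P1)-(P4) is `≈ α₁` on all bounded Baire class 1
functions on all Polish spaces (this is the negated form of the question).  Second part: the same
for a single Polish space. -/
theorem result :
    (∀ ρ : Rank, P1 ρ → P2 ρ → P3 ρ → P4 ρ →
      ∀ (X : Type) [TopologicalSpace X] [PolishSpace X] (f : X → ℝ), BB f →
        Eqv (ρ X f) (alphaf f)) ∧
    ∀ (X : Type) [TopologicalSpace X] [PolishSpace X] (r : (X → ℝ) → Ordinal.{0}), RankOn r →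
      ∀ f : X → ℝ, BB f → Eqv (r f) (alphaf f) := by
  refine ⟨?_, fun X _ _ r hr f hf => Pool.Q304.RK.main hr hf⟩
  intro ρ h1 h2 h3 h4 X _ _ f hf
  have hr : RankOn (X := X) (ρ X) :=
    ⟨h1 X, (h2 X).1, (h2 X).2, h3 X, h4 X⟩
  exact Pool.Q304.RK.main hr hf

end Pool.Agent.Results.MP_12cd8a_lc.RestrictionNotNeeded
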